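import Pool.Agent.N912.LC.Stm2
import Pool.Agent.H510R2.Div

/-!
Project LC (helper912), part LC7d (helper49): at least `N^(1-δ)` integers `n ≤ N` for which `n^2+Bn+C` has a
factorisation `d e` with prescribed `Ω(d)`, `Ω(e)` modulo `k`.
-/

set_option autoImplicit false

namespace Pool.Agent.N49.LC

open Finset Filter
open Pool.Agent.N912.LC

theorem mem_TQ {B C : ℤ} {X : ℕ} {y : ℕ × ℕ × ℕ} : y ∈ TQ 1 B C 0 1 0 1 (X : ℝ) ↔
    (y.1 : ℤ) * y.2.1 = (y.2.2 : ℤ) ^ 2 + B * y.2.2 + C ∧ 0 < y.1 ∧ y.1 ≤ X ∧ 0 < y.2.1 ∧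
      y.2.1 ≤ X := by
  unfold TQ
  simp only [Set.mem_ofPred_eq, zero_mul, one_mul, Nat.cast_pos, Nat.cast_le]

theorem n_le {B C : ℤ} (h : B ^ 2 < 4 * C) {X d e n : ℕ}
    (h1 : (d : ℤ) * e = (n : ℤ) ^ 2 + B * n + C) (h3 : d ≤ X) (h5 : e ≤ X) :
    n < X + B.natAbs + 1 := by
  by_contra hcon
  push Not at hcon
  have hC : 0 < C := by nlinarith [sq_nonneg B]
  have h6 : (X : ℤ) + B.natAbs + 1 ≤ n := by exact_mod_cast hcon
  have h7 : (d : ℤ) * e ≤ X * X := by exact_mod_cast Nat.mul_le_mul h3 h5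
  have h8 : (X : ℤ) ≤ n + B := by omega
  have h9 : (X : ℤ) ≤ n := by omega
  have h10 : (X : ℤ) * X ≤ n * (n + B) := mul_le_mul h9 h8 (by positivity) (by positivity)
  nlinarith

open scoped Classical in
/-- the triples in the residue class of `u` -/
noncomputable def U (B C : ℤ) (q u X : ℕ) : Finset (ℕ × ℕ × ℕ) :=
  ((Icc 1 X) ×ˢ (Icc 1 X) ×ˢ (range (X + B.natAbs + 1))).filter
    (fun y => (y.1 : ℤ) * y.2.1 = (y.2.2 : ℤ) ^ 2 + B * y.2.2 + C ∧ y.2.2 ≡ u [MOD q])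

theorem mem_U {B C : ℤ} (h : B ^ 2 < 4 * C) {q u X : ℕ} {y : ℕ × ℕ × ℕ} : y ∈ U B C q u X ↔
    (y.1 : ℤ) * y.2.1 = (y.2.2 : ℤ) ^ 2 + B * y.2.2 + C ∧ 0 < y.1 ∧ y.1 ≤ X ∧ 0 < y.2.1 ∧
      y.2.1 ≤ X ∧ y.2.2 ≡ u [MOD q] := by
  unfold U
  rw [mem_filter, mem_product, mem_product, mem_Icc, mem_Icc, mem_range]
  constructor
  · rintro ⟨⟨⟨h1, h2⟩, ⟨h3, h4⟩, h5⟩, h6, h7⟩
    exact ⟨h6, h1, h2, h3, h4, h7⟩
  · rintro ⟨h1, h2, h3, h4, h5, h6⟩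
    exact ⟨⟨⟨h2, h3⟩, ⟨h4, h5⟩, n_le h h1 h3 h5⟩, h1, h6⟩

open scoped Classical in
/-- the triples with prescribed numbers of prime factors -/
noncomputable def V (B C : ℤ) (q u k i j X : ℕ) : Finset (ℕ × ℕ × ℕ) :=
  (U B C q u X).filter (fun y => ArithmeticFunction.cardFactors y.1 ≡ i [MOD k] ∧
    ArithmeticFunction.cardFactors y.2.1 ≡ j [MOD k])

theorem V_one (B C : ℤ) (q u X : ℕ) : V B C q u 1 0 0 X = U B C q u X := by
  unfold V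
  exact filter_true_of_mem fun y _ => ⟨Nat.modEq_one, Nat.modEq_one⟩

open scoped Classical in
theorem ncard_TO {B C : ℤ} (h : B ^ 2 < 4 * C) {q : ℕ} (u k i j X : ℕ) {p : ℕ × ℕ}
    (hp : p ∈ range q ×ˢ range q) :
    Set.ncard (TO 1 B C q u p.1 p.2 k i j 0 1 0 1 (X : ℝ)) =
      ((V B C q u k i j X).filter (fun y => (y.1 % q, y.2.1 % q) = p)).card := by
  rw [← Set.ncard_coe_finset]
  congr 1
  ext y
  obtain ⟨r, r'⟩ := p
  rw [mem_product, mem_range, mem_range] at hp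
  have e1 : r % q = r := Nat.mod_eq_of_lt hp.1
  have e2 : r' % q = r' := Nat.mod_eq_of_lt hp.2
  rw [mem_coe, mem_filter]
  unfold V
  rw [mem_filter, mem_U h]
  unfold TO
  rw [Set.mem_sep_iff, mem_TQ]
  have e3 : (y.1 % q, y.2.1 % q) = (r, r') ↔ y.1 ≡ r [MOD q] ∧ y.2.1 ≡ r' [MOD q] := by
    rw [Prod.mk.injEq]
    unfold Nat.ModEq
    rw [e1, e2]
  rw [e3]
  tauto

open scoped Classical in
theorem sum_TO {B C : ℤ} (h : B ^ 2 < 4 * C) {q : ℕ} (hq : 1 ≤ q) (u k i j X : ℕ) :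
    ∑ p ∈ range q ×ˢ range q, (Set.ncard (TO 1 B C q u p.1 p.2 k i j 0 1 0 1 (X : ℝ)) : ℝ) =
      ((V B C q u k i j X).card : ℝ) := by
  rw [sum_congr rfl (fun p hp => by rw [ncard_TO h u k i j X hp])]
  rw [card_eq_sum_card_fiberwise (s := V B C q u k i j X) (t := range q ×ˢ range q)
    (f := fun y => (y.1 % q, y.2.1 % q))]
  · push_cast
    rfl
  · intro y _
    rw [mem_coe, mem_product, mem_range, mem_range]
    exact ⟨Nat.mod_lt _ hq, Nat.mod_lt _ hq⟩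

/-- the deviation -/
noncomputable def D (B C : ℤ) (q u k i j X : ℕ) : ℝ := ∑ p ∈ range q ×ˢ range q,
  |(Set.ncard (TO 1 B C q u p.1 p.2 k i j 0 1 0 1 (X : ℝ)) : ℝ) -
      1 / (k : ℝ) ^ 2 * (Set.ncard (TO 1 B C q u p.1 p.2 1 0 0 0 1 0 1 (X : ℝ)) : ℝ)|

theorem V_ge {B C : ℤ} (h : B ^ 2 < 4 * C) {q : ℕ} (hq : 1 ≤ q) (u k i j X : ℕ) :
    1 / (k : ℝ) ^ 2 * ((U B C q u X).card : ℝ) - D B C q u k i j X ≤
      ((V B C q u k i j X).card : ℝ) := by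
  rw [← V_one, ← sum_TO h hq, ← sum_TO h hq, D, mul_sum, ← sum_sub_distrib]
  refine sum_le_sum fun p _ => ?_
  have := neg_abs_le ((Set.ncard (TO 1 B C q u p.1 p.2 k i j 0 1 0 1 (X : ℝ)) : ℝ) -
      1 / (k : ℝ) ^ 2 * (Set.ncard (TO 1 B C q u p.1 p.2 1 0 0 0 1 0 1 (X : ℝ)) : ℝ))
  linarith

theorem D_nonneg (B C : ℤ) (q u k i j X : ℕ) : 0 ≤ D B C q u k i j X :=
  sum_nonneg fun _ _ => abs_nonneg _

/-- FINO summed over the residues -/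
theorem D_small (hF : S_FINO) {B C : ℤ} (h : B ^ 2 < 4 * C) {q : ℕ} (hq : 1 ≤ q) (u : ℕ) {k : ℕ}
    (hk : 1 ≤ k) (i j : ℕ) {ε : ℝ} (hε : 0 < ε) : ∃ N₀ : ℕ, ∀ N' : ℕ, N₀ ≤ N' →
      ∑ X ∈ Icc 1 N', 1 / (X : ℝ) ^ 2 * D B C q u k i j X ≤ ε * Real.log N' := by
  have hq0 : (0 : ℝ) < q := by exact_mod_cast hq
  have h1 : ∀ p : ℕ × ℕ, ∃ N₀ : ℕ, ∀ N' : ℕ, N₀ ≤ N' → ∑ X ∈ Icc 1 N', 1 / (X : ℝ) ^ 2 *
      |(Set.ncard (TO 1 B C q u p.1 p.2 k i j 0 1 0 1 (X : ℝ)) : ℝ) -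
      1 / (k : ℝ) ^ 2 * (Set.ncard (TO 1 B C q u p.1 p.2 1 0 0 0 1 0 1 (X : ℝ)) : ℝ)| ≤
      ε / (q : ℝ) ^ 2 * Real.log N' := fun p =>
    hF 1 B C one_pos (by linarith) q u p.1 p.2 k i j hq hk 0 1 0 1 le_rfl one_pos le_rfl one_pos
      (ε / (q : ℝ) ^ 2) (by positivity)
  choose f hf using h1
  refine ⟨(range q ×ˢ range q).sup f, fun N' hN' => ?_⟩
  have h2 : ∑ X ∈ Icc 1 N', 1 / (X : ℝ) ^ 2 * D B C q u k i j X =
      ∑ p ∈ range q ×ˢ range q, ∑ X ∈ Icc 1 N', 1 / (X : ℝ) ^ 2 *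
      |(Set.ncard (TO 1 B C q u p.1 p.2 k i j 0 1 0 1 (X : ℝ)) : ℝ) -
      1 / (k : ℝ) ^ 2 * (Set.ncard (TO 1 B C q u p.1 p.2 1 0 0 0 1 0 1 (X : ℝ)) : ℝ)| := by
    rw [sum_comm]
    refine sum_congr rfl fun X _ => ?_
    rw [D, mul_sum]
  rw [h2]
  refine le_trans (sum_le_sum (g := fun _ => ε / (q : ℝ) ^ 2 * Real.log N')
    fun p hp => hf p N' ((le_sup hp).trans hN')) ?_
  rw [sum_const, card_product, card_range, nsmul_eq_mul]
  push_cast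
  have e : (q : ℝ) * q * (ε / (q : ℝ) ^ 2 * Real.log N') = ε * Real.log N' := by
    field_simp
  rw [e]

/-- the harmonic sum -/
theorem harm (L : ℕ) : ∀ M : ℕ, L ≤ M →
    Real.log (M + 1) - Real.log (L + 1) ≤ ∑ X ∈ Ioc L M, 1 / (X : ℝ) := by
  intro M hM
  induction M, hM using Nat.le_induction with
  | base => simp
  | succ M hM ih =>
    rw [sum_Ioc_succ_top hM]
    have h1 : Real.log (M + 1 + 1) - Real.log (M + 1) ≤ 1 / ((M : ℝ) + 1) := by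
      have h0 : (0 : ℝ) < (M : ℝ) + 1 := by positivity
      rw [← Real.log_div (by positivity) (by positivity)]
      have h2 := Real.log_le_sub_one_of_pos (show (0 : ℝ) < ((M : ℝ) + 1 + 1) / (M + 1) by positivity)
      have h3 : ((M : ℝ) + 1 + 1) / (M + 1) - 1 = 1 / (M + 1) := by
        field_simp
        ring
      linarith
    push_cast
    linarith

/-- a good scale -/
theorem good_scale {D : ℕ → ℝ} (hD : ∀ X, 0 ≤ D X) {η δ : ℝ} (hη : 0 < η) (hδ : 0 < δ) (hδ1 : δ ≤ 1)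
    {N₁ : ℕ} (h : ∀ N' : ℕ, N₁ ≤ N' → ∑ X ∈ Icc 1 N', 1 / (X : ℝ) ^ 2 * D X ≤
      η * δ / 8 * Real.log N') : ∃ N₀ : ℕ, ∀ N : ℕ, N₀ ≤ N → ∃ X : ℕ, (N : ℝ) ^ (1 - δ / 2) ≤ X ∧
      2 * X ≤ N ∧ D X ≤ η * X := by
  obtain ⟨T, hT⟩ := exists_nat_gt (Real.exp (16 * Real.log 2 / (3 * δ)))
  refine ⟨max (2 * (N₁ + 1)) T, fun N hN => ?_⟩
  have hN1 : 2 * (N₁ + 1) ≤ N := (le_max_left _ _).trans hN
  have hN2 : (T : ℝ) ≤ N := by exact_mod_cast (le_max_right _ _).trans hN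
  have hN0 : (1 : ℝ) ≤ N := by
    have : 1 ≤ N := by omega
    exact_mod_cast this
  have hNp : (0 : ℝ) < N := by linarith
  have hlog : 16 * Real.log 2 / (3 * δ) < Real.log N := by
    rw [Real.lt_log_iff_exp_lt hNp]
    exact hT.trans_le hN2
  by_contra hcon
  push Not at hcon
  obtain ⟨L, hL⟩ : ∃ L : ℕ, L = ⌊(N : ℝ) ^ (1 - δ / 2)⌋₊ := ⟨_, rfl⟩
  have hLN : (L : ℝ) ≤ (N : ℝ) ^ (1 - δ / 2) := by
    rw [hL]
    exact Nat.floor_le (by positivity)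
  have hpow1 : (1 : ℝ) ≤ (N : ℝ) ^ (1 - δ / 2) := Real.one_le_rpow hN0 (by linarith)
  have hlogL : Real.log ((L : ℝ) + 1) ≤ Real.log 2 + (1 - δ / 2) * Real.log N := by
    rw [← Real.log_rpow hNp, ← Real.log_mul (by norm_num) (by positivity)]
    refine Real.log_le_log (by positivity) ?_
    linarith
  have hlogM : Real.log N - Real.log 2 ≤ Real.log (((N / 2 : ℕ) : ℝ) + 1) := by
    rw [← Real.log_div (by positivity) (by norm_num)]
    refine Real.log_le_log (by positivity) ?_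
    have h1 : N ≤ 2 * (N / 2) + 2 := by omega
    have h2 : (N : ℝ) ≤ 2 * ((N / 2 : ℕ) : ℝ) + 2 := by exact_mod_cast h1
    linarith
  have h16 : 16 * Real.log 2 < 3 * δ * Real.log N := by
    rw [div_lt_iff₀ (by positivity)] at hlog
    linarith
  have hl2 : 0 < Real.log 2 := Real.log_pos (by norm_num)
  have hLM : L ≤ N / 2 := by
    by_contra h1
    push Not at h1
    have h2 : ((N / 2 : ℕ) : ℝ) + 1 ≤ (L : ℝ) + 1 := by
      have : (N / 2 : ℕ) ≤ L := h1.le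
      have h3 : ((N / 2 : ℕ) : ℝ) ≤ L := by exact_mod_cast this
      linarith
    have h3 := Real.log_le_log (by positivity) h2
    nlinarith
  have h1 := harm L (N / 2) hLM
  have h2 : η * ∑ X ∈ Ioc L (N / 2), 1 / (X : ℝ) ≤ ∑ X ∈ Icc 1 (N / 2), 1 / (X : ℝ) ^ 2 * D X := by
    rw [mul_sum]
    refine le_trans (sum_le_sum (g := fun X : ℕ => 1 / (X : ℝ) ^ 2 * D X) fun X hX => ?_)
      (sum_le_sum_of_subset_of_nonneg ?_ fun X _ _ => mul_nonneg (by positivity) (hD X))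
    · rw [mem_Ioc] at hX
      have hX1 : (N : ℝ) ^ (1 - δ / 2) ≤ X := by
        have := hX.1
        rw [hL] at this
        exact (Nat.lt_of_floor_lt this).le
      have hX2 := hcon X hX1 (by omega)
      have hX0 : (0 : ℝ) < X := by linarith
      have e : η * (1 / (X : ℝ)) = 1 / (X : ℝ) ^ 2 * (η * X) := by
        field_simp
      rw [e]
      exact mul_le_mul_of_nonneg_left hX2.le (by positivity)
    · intro X hX
      rw [mem_Ioc] at hX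
      rw [mem_Icc]
      omega
  have h3 := h (N / 2) (by omega)
  have h4 : Real.log ((N / 2 : ℕ) : ℝ) ≤ Real.log N := by
    refine Real.log_le_log ?_ ?_
    · have : 0 < N / 2 := by omega
      exact_mod_cast this
    · have : N / 2 ≤ N := Nat.div_le_self _ _
      exact_mod_cast this
  have h5 : η * δ / 8 * Real.log ((N / 2 : ℕ) : ℝ) ≤ η * δ / 8 * Real.log N :=
    mul_le_mul_of_nonneg_left h4 (by positivity)
  have h6 : η * (δ / 2 * Real.log N - 2 * Real.log 2) ≤ η * ∑ X ∈ Ioc L (N / 2), 1 / (X : ℝ) := by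
    refine mul_le_mul_of_nonneg_left ?_ hη.le
    linarith
  have h7 : η * (δ / 2 * Real.log N - 2 * Real.log 2) ≤ η * (δ / 8 * Real.log N) := by
    have : η * δ / 8 * Real.log N = η * (δ / 8 * Real.log N) := by ring
    linarith
  have h8 := le_of_mul_le_mul_left h7 hη
  linarith

/-- the lower bound for the number of triples -/
theorem card_P_le {t c κ B C : ℤ} (ht : 0 ≤ t) (h : B ^ 2 < 4 * C) (hB : B = 2 * κ + t)
    (hc : c = C - κ ^ 2 - t * κ) {q u a : ℕ} (ha : (a : ℤ) ≡ u + κ [ZMOD q]) : ∃ K : ℕ, ∀ X : ℕ,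
    ((TP t c X).filter (fun y => y.2.2 ≡ a [MOD q])).card ≤ (U B C q u X).card + K := by
  classical
  obtain ⟨W, hW⟩ : ∃ W : ℕ, W = (κ.toNat ^ 2 + t * κ.toNat + |c|).toNat := ⟨_, rfl⟩
  refine ⟨((Icc 1 W) ×ˢ (Icc 1 W) ×ˢ (range κ.toNat)).card, fun X => ?_⟩
  obtain ⟨P, hP⟩ : ∃ P : Finset (ℕ × ℕ × ℕ),
    P = (TP t c X).filter (fun y => y.2.2 ≡ a [MOD q]) := ⟨_, rfl⟩
  rw [← hP]
  have hPm : ∀ y ∈ P, 0 < y.1 ∧ y.1 ≤ X ∧ 0 < y.2.1 ∧ y.2.1 ≤ X ∧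
      (y.1 : ℤ) * y.2.1 = (y.2.2 : ℤ) ^ 2 + t * y.2.2 + c ∧ y.2.2 ≡ a [MOD q] := by
    intro y hy
    rw [hP, mem_filter] at hy
    obtain ⟨hy, h2⟩ := hy
    unfold TP at hy
    rw [mem_filter, mem_product, mem_product, mem_Icc, mem_Icc, Nat.floor_natCast] at hy
    exact ⟨hy.1.1.1, hy.1.1.2, hy.1.2.1.1, hy.1.2.1.2, hy.2.1, h2⟩
  rw [← card_filter_add_card_filter_not (s := P) (fun y => κ ≤ (y.2.2 : ℤ))]
  refine Nat.add_le_add ?_ ?_
  · refine card_le_card_of_injOn (fun y => (y.1, y.2.1, ((y.2.2 : ℤ) - κ).toNat)) ?_ ?_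
    · intro y hy
      rw [mem_coe, mem_filter] at hy
      obtain ⟨hy, hk⟩ := hy
      obtain ⟨h1, h2, h3, h4, h5, h6⟩ := hPm y hy
      have e : ((((y.2.2 : ℤ) - κ).toNat : ℕ) : ℤ) = (y.2.2 : ℤ) - κ := Int.toNat_of_nonneg (by omega)
      show (y.1, y.2.1, ((y.2.2 : ℤ) - κ).toNat) ∈ ((U B C q u X : Finset (ℕ × ℕ × ℕ)) : Set _)
      rw [mem_coe, mem_U h]
      refine ⟨?_, h1, h2, h3, h4, ?_⟩
      · show (y.1 : ℤ) * y.2.1 = ((((y.2.2 : ℤ) - κ).toNat : ℕ) : ℤ) ^ 2 +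
          B * ((((y.2.2 : ℤ) - κ).toNat : ℕ) : ℤ) + C
        rw [e, h5, hB, hc]
        ring
      · show ((y.2.2 : ℤ) - κ).toNat ≡ u [MOD q]
        rw [← Int.natCast_modEq_iff, e]
        have h7 : (y.2.2 : ℤ) ≡ a [ZMOD q] := Int.natCast_modEq_iff.2 h6
        have h8 := (h7.trans ha).sub_right κ
        rwa [add_sub_cancel_right] at h8
    · intro y hy y' hy' he
      rw [mem_coe, mem_filter] at hy hy'
      have h1 := hy.2
      have h2 := hy'.2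
      simp only [Prod.mk.injEq] at he
      obtain ⟨e1, e2, e3⟩ := he
      refine Prod.ext e1 (Prod.ext e2 ?_)
      omega
  · refine card_le_card fun y hy => ?_
    rw [mem_filter] at hy
    obtain ⟨hy, hk⟩ := hy
    push Not at hk
    obtain ⟨h1, h2, h3, h4, h5, h6⟩ := hPm y hy
    have h7 : (y.2.2 : ℤ) ≤ κ.toNat := by omega
    have h8 : (y.1 : ℤ) * y.2.1 ≤ κ.toNat ^ 2 + t * κ.toNat + |c| := by
      rw [h5]
      have h9 : (y.2.2 : ℤ) ^ 2 ≤ (κ.toNat : ℤ) ^ 2 := pow_le_pow_left₀ (by positivity) h7 2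
      have h10 : t * (y.2.2 : ℤ) ≤ t * κ.toNat := mul_le_mul_of_nonneg_left h7 ht
      have h11 := le_abs_self c
      linarith
    have h9 : y.1 * y.2.1 ≤ W := by
      rw [hW]
      have : ((y.1 * y.2.1 : ℕ) : ℤ) ≤ κ.toNat ^ 2 + t * κ.toNat + |c| := by
        push_cast
        exact h8
      omega
    rw [mem_product, mem_product, mem_Icc, mem_Icc, mem_range]
    refine ⟨⟨h1, (Nat.le_mul_of_pos_right _ h3).trans h9⟩, ⟨h3, (Nat.le_mul_of_pos_left _ h1).trans h9⟩, ?_⟩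
    show y.2.2 < κ.toNat
    omega

theorem U_ge (h9 : S_LC9) {B C : ℤ} (h : B ^ 2 < 4 * C) {q : ℕ} (hq : 1 ≤ q) (u : ℕ) :
    ∃ c₁ : ℝ, 0 < c₁ ∧ ∃ X₀ : ℕ, ∀ X : ℕ, X₀ ≤ X → c₁ * X ≤ ((U B C q u X).card : ℝ) := by
  obtain ⟨κ, hκ⟩ : ∃ κ : ℤ, κ = B / 2 := ⟨_, rfl⟩
  obtain ⟨t, ht⟩ : ∃ t : ℤ, t = B % 2 := ⟨_, rfl⟩
  obtain ⟨c, hc⟩ : ∃ c : ℤ, c = C - κ ^ 2 - t * κ := ⟨_, rfl⟩
  have hB : B = 2 * κ + t := by omega
  have ht1 : t = 0 ∨ t = 1 := by omega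
  have ht0 : 0 ≤ t := by omega
  have hdisc : t ^ 2 < 4 * c := by
    rw [hc]
    rw [hB] at h
    nlinarith
  have hq0 : (0 : ℤ) < q := by exact_mod_cast hq
  obtain ⟨a, ha⟩ : ∃ a : ℕ, (a : ℤ) = ((u : ℤ) + κ) % q :=
    ⟨(((u : ℤ) + κ) % q).toNat, Int.toNat_of_nonneg (Int.emod_nonneg _ hq0.ne')⟩
  have ha' : (a : ℤ) ≡ u + κ [ZMOD q] := by
    rw [ha]
    exact Int.mod_modEq _ _
  obtain ⟨K, hK⟩ := card_P_le ht0 h hB hc ha'
  obtain ⟨c₁, hc₁, X₀, hX₀⟩ := h9 t c ht1 hdisc q a hq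
  obtain ⟨T, hT⟩ := exists_nat_ge (2 * K / c₁)
  refine ⟨c₁ / 2, by positivity, max X₀ T, fun X hX => ?_⟩
  have h1 := hX₀ X ((le_max_left _ _).trans hX)
  have h2 : (((TP t c X).filter (fun y => y.2.2 ≡ a [MOD q])).card : ℝ) ≤
      (U B C q u X).card + K := by exact_mod_cast hK X
  have h3 : (T : ℝ) ≤ X := by exact_mod_cast (le_max_right _ _).trans hX
  have h4 : 2 * (K : ℝ) ≤ c₁ * X := by
    have := hT.trans h3
    rw [div_le_iff₀ hc₁] at this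
    linarith
  have h5 := h1.trans h2
  linarith

/-- the number of different `n` -/
theorem img_ge {B C : ℤ} (h : B ^ 2 < 4 * C) (q u k i j X : ℕ) {Cd θ : ℝ} (hC : 0 < Cd) (hθ : 0 ≤ θ)
    (hd : ∀ n : ℕ, 1 ≤ n → (n.divisors.card : ℝ) ≤ Cd * (n : ℝ) ^ θ) :
    ((V B C q u k i j X).card : ℝ) ≤ Cd * (X : ℝ) ^ (2 * θ) *
      (((V B C q u k i j X).image (fun y => y.2.2)).card : ℝ) := by
  classical
  have hV : ∀ y ∈ V B C q u k i j X, (y.1 : ℤ) * y.2.1 = (y.2.2 : ℤ) ^ 2 + B * y.2.2 + C ∧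
      0 < y.1 ∧ y.1 ≤ X ∧ 0 < y.2.1 ∧ y.2.1 ≤ X := by
    intro y hy
    unfold V at hy
    rw [mem_filter, mem_U h] at hy
    exact ⟨hy.1.1, hy.1.2.1, hy.1.2.2.1, hy.1.2.2.2.1, hy.1.2.2.2.2.1⟩
  have h1 := card_le_mul_card_image (f := fun y : ℕ × ℕ × ℕ => y.2.2) (V B C q u k i j X)
    ⌊Cd * (X : ℝ) ^ (2 * θ)⌋₊ ?_
  · have h2 : ((V B C q u k i j X).card : ℝ) ≤ (⌊Cd * (X : ℝ) ^ (2 * θ)⌋₊ : ℝ) *
        (((V B C q u k i j X).image (fun y => y.2.2)).card : ℝ) := by exact_mod_cast h1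
    refine h2.trans (mul_le_mul_of_nonneg_right (Nat.floor_le (by positivity)) (by positivity))
  · intro n hn
    rw [mem_image] at hn
    obtain ⟨y, hy, rfl⟩ := hn
    obtain ⟨e1, e2, e3, e4, e5⟩ := hV y hy
    refine Nat.le_floor ?_
    have h3 : (((V B C q u k i j X).filter (fun x => x.2.2 = y.2.2)).card : ℝ) ≤
        ((y.1 * y.2.1).divisors.card : ℝ) := by
      have : ((V B C q u k i j X).filter (fun x => x.2.2 = y.2.2)).card ≤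
          (y.1 * y.2.1).divisors.card := by
        refine card_le_card_of_injOn (fun x => x.1) ?_ ?_
        · intro x hx
          rw [mem_coe, mem_filter] at hx
          obtain ⟨f1, f2, f3, f4, f5⟩ := hV x hx.1
          rw [hx.2, ← e1] at f1
          have f6 : x.1 * x.2.1 = y.1 * y.2.1 := by exact_mod_cast f1
          show x.1 ∈ (((y.1 * y.2.1).divisors : Finset ℕ) : Set ℕ)
          rw [mem_coe, Nat.mem_divisors]
          exact ⟨⟨x.2.1, f6.symm⟩, (Nat.mul_pos e2 e4).ne'⟩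
        · intro x hx x' hx' he
          rw [mem_coe, mem_filter] at hx hx'
          obtain ⟨f1, f2, f3, f4, f5⟩ := hV x hx.1
          obtain ⟨g1, g2, g3, g4, g5⟩ := hV x' hx'.1
          rw [hx.2, ← e1] at f1
          rw [hx'.2, ← e1] at g1
          have f6 : x.1 * x.2.1 = y.1 * y.2.1 := by exact_mod_cast f1
          have g6 : x'.1 * x'.2.1 = y.1 * y.2.1 := by exact_mod_cast g1
          have he' : x.1 = x'.1 := he
          have h7 : x.2.1 = x'.2.1 := by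
            have : x.1 * x.2.1 = x.1 * x'.2.1 := by rw [f6, he', g6]
            exact Nat.eq_of_mul_eq_mul_left f2 this
          exact Prod.ext he' (Prod.ext h7 (by rw [hx.2, hx'.2]))
      exact_mod_cast this
    refine h3.trans ((hd _ (Nat.mul_pos e2 e4)).trans (mul_le_mul_of_nonneg_left ?_ hC.le))
    have h4 : ((y.1 * y.2.1 : ℕ) : ℝ) ≤ (X : ℝ) ^ (2 : ℕ) := by
      have : y.1 * y.2.1 ≤ X ^ 2 := by
        rw [sq]
        exact Nat.mul_le_mul e3 e5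
      exact_mod_cast this
    refine (Real.rpow_le_rpow (by positivity) h4 hθ).trans (le_of_eq ?_)
    rw [Real.rpow_mul (by positivity), ← Real.rpow_natCast]
    norm_num

/-- LC7d, `δ ≤ 1` -/
theorem finz1 (hF : S_FINO) (h9 : S_LC9) {B C : ℤ} (h : B ^ 2 < 4 * C) {q : ℕ} (hq : 1 ≤ q) (u : ℕ)
    {k : ℕ} (hk : 1 ≤ k) (i j : ℕ) {δ : ℝ} (hδ : 0 < δ) (hδ1 : δ ≤ 1) :
    ∃ N₀ : ℕ, ∀ N : ℕ, N₀ ≤ N → (N : ℝ) ^ (1 - δ) ≤
    (Set.ncard {n : ℕ | n ≤ N ∧ n ≡ u [MOD q] ∧ ∃ d e : ℕ, (d : ℤ) * e = (n : ℤ) ^ 2 + B * n + C ∧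
      ArithmeticFunction.cardFactors d ≡ i [MOD k] ∧
      ArithmeticFunction.cardFactors e ≡ j [MOD k]} : ℝ) := by
  classical
  have hk0 : (0 : ℝ) < k := by exact_mod_cast hk
  obtain ⟨c₁, hc₁, X₀, hX₀⟩ := U_ge h9 h hq u
  obtain ⟨η, hη⟩ : ∃ η : ℝ, η = c₁ / (2 * (k : ℝ) ^ 2) := ⟨_, rfl⟩
  have hη0 : 0 < η := by rw [hη]; positivity
  obtain ⟨N₁, hN₁⟩ := D_small hF h hq u hk i j (ε := η * δ / 8) (by positivity)
  obtain ⟨N₂, hN₂⟩ := good_scale (D_nonneg B C q u k i j) hη0 hδ hδ1 hN₁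
  obtain ⟨Cd, hCd, hdiv⟩ := Pool.Agent.H510R2.divisor_bound (δ / 4) (by positivity)
  have hT1 : Tendsto (fun N : ℕ => (N : ℝ) ^ (δ ^ 2 / 4)) atTop atTop :=
    (tendsto_rpow_atTop (by positivity)).comp tendsto_natCast_atTop_atTop
  obtain ⟨N₃, hN₃⟩ := eventually_atTop.1 (hT1.eventually_ge_atTop (Cd / η))
  have hT2 : Tendsto (fun N : ℕ => (N : ℝ) ^ (1 - δ / 2)) atTop atTop :=
    (tendsto_rpow_atTop (by linarith)).comp tendsto_natCast_atTop_atTop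
  obtain ⟨N₄, hN₄⟩ := eventually_atTop.1 (hT2.eventually_ge_atTop ((X₀ : ℝ) + 1))
  refine ⟨max (max N₂ N₃) (max N₄ (2 * B.natAbs + 1)), fun N hN => ?_⟩
  have hN2 : N₂ ≤ N := ((le_max_left _ _).trans (le_max_left _ _)).trans hN
  have hN3 : N₃ ≤ N := ((le_max_right _ _).trans (le_max_left _ _)).trans hN
  have hN4 : N₄ ≤ N := ((le_max_left _ _).trans (le_max_right _ _)).trans hN
  have hN5 : 2 * B.natAbs + 1 ≤ N := ((le_max_right _ _).trans (le_max_right _ _)).trans hN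
  obtain ⟨X, hX1, hX2, hX3⟩ := hN₂ N hN2
  have hX4 : (X₀ : ℝ) + 1 ≤ X := (hN₄ N hN4).trans hX1
  have hX5 : X₀ ≤ X := by
    have : (X₀ : ℝ) ≤ X := by linarith
    exact_mod_cast this
  have hXp : (0 : ℝ) < X := by
    have : (0 : ℝ) ≤ X₀ := by positivity
    linarith
  have hNp : (0 : ℝ) < N := by
    have : 0 < N := by omega
    exact_mod_cast this
  have h1 : η * X ≤ ((V B C q u k i j X).card : ℝ) := by
    have h2 := V_ge h hq u k i j X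
    have h3 : 1 / (k : ℝ) ^ 2 * (c₁ * X) ≤ 1 / (k : ℝ) ^ 2 * ((U B C q u X).card : ℝ) :=
      mul_le_mul_of_nonneg_left (hX₀ X hX5) (by positivity)
    have h4 : 1 / (k : ℝ) ^ 2 * (c₁ * X) = 2 * (η * X) := by
      rw [hη]
      field_simp
    linarith
  obtain ⟨S, hS⟩ : ∃ S : Finset ℕ, S = (V B C q u k i j X).image (fun y => y.2.2) := ⟨_, rfl⟩
  have h2 := img_ge h q u k i j X hCd (by positivity : (0 : ℝ) ≤ δ / 4) hdiv
  rw [← hS] at h2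
  have e1 : 2 * (δ / 4) = δ / 2 := by ring
  rw [e1] at h2
  have h3 : (N : ℝ) ^ (1 - δ) ≤ (S.card : ℝ) := by
    have h4 : η * (X : ℝ) ^ (1 - δ / 2) ≤ Cd * S.card := by
      have h5 : (X : ℝ) = (X : ℝ) ^ (1 - δ / 2) * (X : ℝ) ^ (δ / 2) := by
        rw [← Real.rpow_add hXp]
        ring_nf
        rw [Real.rpow_one]
      have h6 : η * (X : ℝ) ^ (1 - δ / 2) * (X : ℝ) ^ (δ / 2) ≤ Cd * S.card * (X : ℝ) ^ (δ / 2) := by
        calc η * (X : ℝ) ^ (1 - δ / 2) * (X : ℝ) ^ (δ / 2) = η * X := by rw [mul_assoc, ← h5]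
          _ ≤ _ := h1
          _ ≤ _ := h2
          _ = Cd * S.card * (X : ℝ) ^ (δ / 2) := by ring
      exact le_of_mul_le_mul_right h6 (by positivity)
    have h5 : (N : ℝ) ^ ((1 - δ / 2) * (1 - δ / 2)) ≤ (X : ℝ) ^ (1 - δ / 2) := by
      rw [Real.rpow_mul hNp.le]
      exact Real.rpow_le_rpow (by positivity) hX1 (by linarith)
    have h6 : (N : ℝ) ^ ((1 - δ / 2) * (1 - δ / 2)) = (N : ℝ) ^ (1 - δ) * (N : ℝ) ^ (δ ^ 2 / 4) := by
      rw [← Real.rpow_add hNp]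
      congr 1
      ring
    have h7 : Cd * (N : ℝ) ^ (1 - δ) ≤ η * (N : ℝ) ^ ((1 - δ / 2) * (1 - δ / 2)) := by
      rw [h6]
      have h8 := hN₃ N hN3
      rw [div_le_iff₀ hη0] at h8
      calc Cd * (N : ℝ) ^ (1 - δ) ≤ ((N : ℝ) ^ (δ ^ 2 / 4) * η) * (N : ℝ) ^ (1 - δ) :=
            mul_le_mul_of_nonneg_right h8 (by positivity)
        _ = _ := by ring
    have h9 : η * (N : ℝ) ^ ((1 - δ / 2) * (1 - δ / 2)) ≤ η * (X : ℝ) ^ (1 - δ / 2) :=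
      mul_le_mul_of_nonneg_left h5 hη0.le
    exact le_of_mul_le_mul_left ((h7.trans h9).trans h4) hCd
  refine h3.trans ?_
  have h4 : S.card ≤ Set.ncard {n : ℕ | n ≤ N ∧ n ≡ u [MOD q] ∧ ∃ d e : ℕ,
      (d : ℤ) * e = (n : ℤ) ^ 2 + B * n + C ∧ ArithmeticFunction.cardFactors d ≡ i [MOD k] ∧
      ArithmeticFunction.cardFactors e ≡ j [MOD k]} := by
    rw [← Set.ncard_coe_finset]
    refine Set.ncard_le_ncard ?_ ((Set.finite_Iic N).subset fun n hn => hn.1)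
    intro n hn
    rw [mem_coe, hS, mem_image] at hn
    obtain ⟨y, hy, rfl⟩ := hn
    unfold V at hy
    rw [mem_filter, mem_U h] at hy
    obtain ⟨⟨g1, g2, g3, g4, g5, g6⟩, g7, g8⟩ := hy
    have g9 := n_le h g1 g3 g5
    exact ⟨by omega, g6, y.1, y.2.1, g1, g7, g8⟩
  exact_mod_cast h4

/-- LC7d -/
theorem finz (h : S_FINO) (h9 : S_LC9) : S_FINZ := by
  intro B C hBC q u k i j hq hk δ hδ
  obtain ⟨N₀, hN₀⟩ := finz1 h h9 hBC hq u hk i j (δ := min δ 1) (lt_min hδ one_pos) (min_le_right _ _)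
  refine ⟨max N₀ 1, fun N hN => le_trans ?_ (hN₀ N ((le_max_left _ _).trans hN))⟩
  have h1 : (1 : ℝ) ≤ N := by exact_mod_cast (le_max_right _ _).trans hN
  refine Real.rpow_le_rpow_of_exponent_le h1 ?_
  have := min_le_left δ 1
  linarith

end Pool.Agent.N49.LC
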